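import Pool.Agent.H702.EX.Asm
import Pool.Graph.R_seed8.R282.EV.Fin

set_option autoImplicit false

/-! # Consequences (helper702, after helper73) -/

namespace Pool.Agent.H702.EX

open Pool.Agent.Y825.EV (Shallow)
open Pool.Agent.R282.EV (shallow_mono)

/-- every multiple of `1800` from `5400` on. -/
theorem every_multiple (n : ℕ) (hd : 1800 ∣ n) (hn : 3 * 1800 ≤ n) : Shallow n (n - 1) := by
  obtain ⟨t, rfl⟩ := hd
  have ht : 3 ≤ t := by omega
  have h := (main t ht).2 1 1 le_rfl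
  rw [pow_one, pow_one, one_mul, one_mul, mul_comm] at h
  exact h

theorem gap (t n : ℕ) (ht : 3 ≤ t) (hn : 1 ≤ n) (hd : t * 1800 ∣ n) :
    Shallow n (n - n / (t * 1800)) := by
  have hpos : 0 < t * 1800 := by positivity
  exact Pool.Agent.R282.EV.gap (t * 1800) (t * 1800) n (main t ht).1
    (dvd_refl _) hpos (main t ht).2 hn hd

theorem log_bound : Real.log 5400 ≤ 8.61 := by
  have h1 : (5400 : ℝ) ^ 5 ≤ 2 ^ 62 := by norm_num
  have h2 := Real.log_le_log (by norm_num) h1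
  rw [Real.log_pow, Real.log_pow] at h2
  have h3 := Real.log_two_lt_d9
  push_cast at h2
  linarith

/-- The exponent reached along the powers of `5400`. -/
theorem exponent (j : ℕ) : ∃ k : ℕ, Shallow (5400 ^ j) k ∧
    (k : ℝ) ≤ ((5400 ^ j : ℕ) : ℝ) ^ (1 - 2.15 / 10 ^ 5 : ℝ) := by
  have h := (main 3 le_rfl).2 1 j le_rfl
  norm_num at h
  refine ⟨5399 ^ j, h, ?_⟩
  have hm : (0 : ℝ) < 5400 := by norm_num
  have key : (5399 : ℝ) ≤ 5400 ^ (1 - 2.15 / 10 ^ 5 : ℝ) := by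
    rw [Real.rpow_def_of_pos hm, mul_sub, mul_one, sub_eq_add_neg, Real.exp_add, Real.exp_log hm]
    have h1 := Real.add_one_le_exp (-(Real.log 5400 * (2.15 / 10 ^ 5)))
    have h2 := log_bound
    have h3 : (1 : ℝ) - 1 / 5400 ≤ Real.exp (-(Real.log 5400 * (2.15 / 10 ^ 5))) := by
      refine le_trans ?_ h1
      have : Real.log 5400 * (2.15 / 10 ^ 5) ≤ 1 / 5400 := by
        calc Real.log 5400 * (2.15 / 10 ^ 5) ≤ 8.61 * (2.15 / 10 ^ 5) := by
              refine mul_le_mul_of_nonneg_right h2 (by positivity)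
          _ ≤ 1 / 5400 := by norm_num
      linarith
    calc (5399 : ℝ) = 5400 * (1 - 1 / 5400) := by norm_num
      _ ≤ _ := mul_le_mul_of_nonneg_left h3 hm.le
  push_cast
  calc (5399 : ℝ) ^ j ≤ (5400 ^ (1 - 2.15 / 10 ^ 5 : ℝ)) ^ j :=
        pow_le_pow_left₀ (by norm_num) key j
    _ = (5400 ^ j) ^ (1 - 2.15 / 10 ^ 5 : ℝ) := by
        rw [← Real.rpow_natCast ((5400 : ℝ) ^ (1 - 2.15 / 10 ^ 5 : ℝ)) j,
          ← Real.rpow_mul hm.le, mul_comm, Real.rpow_mul hm.le, Real.rpow_natCast]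

/-- Weak evasiveness fails for all `n` divisible by a power of `30` which is not too small. -/
theorem thirty (C n j : ℕ) (hC : 1 ≤ C) (hn : 1 ≤ n) (hj : 3 ≤ j) (hd : 30 ^ j ∣ n)
    (hnC : n ≤ 30 ^ (C * j)) : ∃ k : ℕ, Shallow n k ∧
      (k : ℝ) < (n : ℝ) ^ (1 - 1 / (48 * C * 30 ^ 3 : ℝ)) := by
  have h := Pool.Agent.R282.EV.weak (3 * 1800) 3 (by norm_num) (by norm_num)
    (by decide) (main 3 (by norm_num)).2 C n j hC hn hj hd hnC
  obtain ⟨k, hk, hk2⟩ := h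
  refine ⟨k, hk, ?_⟩
  have e : (16 * ((3 : ℕ) : ℝ) * C * 30 ^ 3 : ℝ) = 48 * C * 30 ^ 3 := by
    push_cast; ring
  rwa [e] at hk2

end Pool.Agent.H702.EX
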