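import Pool.Agent.H702.EX.Red
import Pool.Graph.R_seed8.H571R3.WinTree
import Pool.Graph.R_seed8.R282.EV.Main

set_option autoImplicit false

/-! # Symmetry and number of the words; assembly (helper73, after helper128 and R282). -/

namespace Pool.Agent.H702.EX

open Set
open Pool.Agent.H571R3 (Win win_tree)

section

variable {V : Type} {k : ℕ} {typ : V → ZMod k}

/-- Coordinatewise action. -/
def act (g : ZMod k → Equiv.Perm V) (hg : ∀ c x, typ (g c x) = typ x) : Equiv.Perm (Wd typ) where
  toFun w := ⟨fun c => g c (w.1 c), fun c => by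
    show typ (g c (w.1 c)) = c + typ (g 0 (w.1 0))
    rw [hg, hg]; exact w.2 c⟩
  invFun w := ⟨fun c => (g c).symm (w.1 c), fun c => by
    have h : ∀ c x, typ ((g c).symm x) = typ x := fun c x => by
      conv_rhs => rw [← (g c).apply_symm_apply x]
      rw [hg]
    show typ ((g c).symm (w.1 c)) = c + typ ((g 0).symm (w.1 0))
    rw [h, h]; exact w.2 c⟩
  left_inv w := by
    apply Subtype.ext
    funext c
    show (g c).symm (g c (w.1 c)) = _
    simp
  right_inv w := by
    apply Subtype.ext
    funext c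
    show g c ((g c).symm (w.1 c)) = _
    simp

/-- Rotation. -/
def rot (s : ZMod k) : Equiv.Perm (Wd typ) where
  toFun w := ⟨fun c => w.1 (c + s), fun c => by
    show typ (w.1 (c + s)) = c + typ (w.1 (0 + s))
    rw [w.2 (c + s), w.2 (0 + s)]; ring⟩
  invFun w := ⟨fun c => w.1 (c - s), fun c => by
    show typ (w.1 (c - s)) = c + typ (w.1 (0 - s))
    rw [w.2 (c - s), w.2 (0 - s)]; ring⟩
  left_inv w := by
    apply Subtype.ext
    funext c
    show w.1 (c - s + s) = _
    simp
  right_inv w := by
    apply Subtype.ext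
    funext c
    show w.1 (c + s - s) = _
    simp

theorem ms_act (g : ZMod k → Equiv.Perm V) (hg : ∀ c x, typ (g c x) = typ x)
    (X : Set (Wd typ)) (c : ZMod k) : ms typ (act g hg '' X) c = g c '' ms typ X c := by
  ext v
  constructor
  · intro hb
    refine ⟨(g c).symm v, ?_, by simp⟩
    intro w hw he
    refine hb _ ⟨w, hw, rfl⟩ ?_
    show g c (w.1 c) = v
    rw [he]
    simp
  · rintro ⟨u, hb, rfl⟩
    rintro _ ⟨w, hw, rfl⟩ he
    exact hb w hw ((g c).injective he)

theorem ms_rot (s : ZMod k) (X : Set (Wd typ)) (c : ZMod k) :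
    ms typ (rot s '' X) c = ms typ X (c + s) := by
  ext v
  constructor
  · intro hb w hw he
    exact hb _ ⟨w, hw, rfl⟩ he
  · rintro hb _ ⟨w, hw, rfl⟩ he
    exact hb w hw he

end

theorem FF_mono {V : Type} {k : ℕ} (typ : V → ZMod k) (S : Set V → Prop)
    (hdown : ∀ A B : Set V, A ⊆ B → S B → S A) {X Y : Set (Wd typ)} (h : X ⊆ Y) :
    FF typ S X → FF typ S Y := by
  rintro ⟨c, hc⟩
  exact ⟨c, hdown _ _ (ms_anti typ h c) hc⟩

theorem FF_empty {V : Type} {k : ℕ} (typ : V → ZMod k) (S : Set V → Prop)
    (h : ¬ S Set.univ) : ¬ FF typ S ∅ := by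
  rintro ⟨c, hc⟩
  apply h
  have : ms typ (∅ : Set (Wd typ)) c = Set.univ := by
    ext v
    simp only [Set.mem_univ, iff_true]
    exact fun w hw => absurd hw (Set.notMem_empty w)
  rwa [this] at hc

theorem FF_univ {V : Type} {k : ℕ} [NeZero k] (typ : V → ZMod k) (S : Set V → Prop)
    (hsurj : Function.Surjective typ) (hempty : S ∅) : FF typ S Set.univ := by
  classical
  refine ⟨0, ?_⟩
  have h : ms typ (Set.univ : Set (Wd typ)) 0 = ∅ := by
    rw [Set.eq_empty_iff_forall_notMem]
    intro v he
    choose r hr using hsurj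
    have hw : ∀ c : ZMod k, typ (if c = 0 then v else r (c + typ v))
        = c + typ (if (0 : ZMod k) = 0 then v else r (0 + typ v)) := by
      intro c
      by_cases hc : c = 0
      · subst hc; simp
      · simp [hc, hr]
    exact he ⟨fun c => if c = 0 then v else r (c + typ v), hw⟩ (Set.mem_univ _) (by simp)
  rw [h]
  exact hempty

theorem FF_trans {V : Type} {k : ℕ} [NeZero k] (typ : V → ZMod k) (S : Set V → Prop)
    (htr : ∀ u v, typ u = typ v → ∃ g : Equiv.Perm V, g u = v ∧ (∀ x, typ (g x) = typ x) ∧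
      ∀ A : Set V, S (g '' A) ↔ S A) (w w' : Wd typ) :
    ∃ σ : Equiv.Perm (Wd typ), σ w = w' ∧ ∀ X : Set (Wd typ),
      FF typ S (σ '' X) ↔ FF typ S X := by
  classical
  let s : ZMod k := typ (w'.1 0) - typ (w.1 0)
  have hty : ∀ c, typ ((rot s w).1 c) = typ (w'.1 c) := by
    intro c
    show typ (w.1 (c + s)) = _
    rw [w.2, w'.2]
    simp only [s]
    ring
  choose g hg1 hg2 hg3 using fun c => htr ((rot s w).1 c) (w'.1 c) (hty c)
  refine ⟨(rot s).trans (act g hg2), ?_, ?_⟩
  · apply Subtype.ext
    funext c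
    exact hg1 c
  · intro X
    have hX : ((rot s).trans (act g hg2)) '' X = act g hg2 '' (rot s '' X) := by
      rw [Set.image_image]
      rfl
    rw [hX]
    constructor
    · rintro ⟨c, hc⟩
      rw [ms_act, hg3, ms_rot] at hc
      exact ⟨c + s, hc⟩
    · rintro ⟨c, hc⟩
      refine ⟨c - s, ?_⟩
      rw [ms_act, hg3, ms_rot]
      simpa using hc

section card

variable {V : Type} [Finite V] {k : ℕ} [NeZero k] (typ : V → ZMod k)

/-- Words of a fixed shift. -/
def fibEquiv (s : ZMod k) : {w : Wd typ // typ (w.1 0) = s} ≃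
    ((c : ZMod k) → {p : V // typ p = c + s}) where
  toFun w c := ⟨w.1.1 c, by rw [w.1.2 c, w.2]⟩
  invFun f := ⟨⟨fun c => (f c).1, fun c => by rw [(f c).2, (f 0).2, zero_add]⟩, by
    show typ (f 0).1 = s
    rw [(f 0).2, zero_add]⟩
  left_inv w := rfl
  right_inv f := rfl

theorem card_Wd : Nat.card (Wd typ) = k * ∏ i : ZMod k, Nat.card {v : V // typ v = i} := by
  have : Finite (Wd typ) := by unfold Wd; infer_instance
  have h1 : Nat.card (Wd typ) = ∑ s : ZMod k, Nat.card {w : Wd typ // typ (w.1 0) = s} := by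
    rw [← Nat.card_sigma]
    exact Nat.card_congr (Equiv.sigmaFiberEquiv fun w : Wd typ => typ (w.1 0)).symm
  have h2 : ∀ s : ZMod k, Nat.card {w : Wd typ // typ (w.1 0) = s} =
      ∏ i : ZMod k, Nat.card {v : V // typ v = i} := by
    intro s
    rw [Nat.card_congr (fibEquiv typ s), Nat.card_pi]
    exact Fintype.prod_equiv (Equiv.addRight s) _ _ fun c => rfl
  rw [h1, Finset.sum_congr rfl fun s _ => h2 s, Finset.sum_const, Finset.card_univ, ZMod.card,
    smul_eq_mul]

end card

/-- Assembly. -/
theorem assemble {V : Type} [Finite V] {k : ℕ} [NeZero k] (typ : V → ZMod k) (S : Set V → Prop)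
    (hsurj : Function.Surjective typ) (hdown : ∀ A B : Set V, A ⊆ B → S B → S A)
    (hempty : S ∅)
    (htr : ∀ u v, typ u = typ v → ∃ g : Equiv.Perm V, g u = v ∧ (∀ x, typ (g x) = typ x) ∧
      ∀ A : Set V, S (g '' A) ↔ S A) (a b e : V)
    (hab : typ b = typ a) (hea : typ e = typ a) (hea' : e ≠ a) (heb : e ≠ b) (hS : ¬ S {a, b})
    (hw1 : W1 typ S ∅ {a}) (hw2 : W1 typ S {a} {b}) (n : ℕ)
    (hn : n = k * ∏ i : ZMod k, Nat.card {v : V // typ v = i}) :
    2 ≤ n ∧ ∀ r j : ℕ, 1 ≤ r →
      Pool.Agent.Y825.EV.Shallow (r * n ^ j) (r * (n - 1) ^ j) := by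
  classical
  have hred := reduce typ S hsurj hdown a b e hab hea hea' heb hS hw1 hw2
  have : Finite (Wd typ) := by unfold Wd; infer_instance
  have : Fintype (Wd typ) := Fintype.ofFinite _
  have hcard : Fintype.card (Wd typ) = n := by
    rw [← Nat.card_eq_fintype_card, card_Wd, hn]
  obtain ⟨t, ht, hdep⟩ := win_tree (FF typ S) hred
  have key := Pool.Agent.R282.EV.shallow_all (Wd typ)
    (fun x => decide (FF typ S {w | x w = true})) t ?_ ?_ ?_ ?_ hdep
  · rw [hcard] at key
    exact key
  · intro x y hxy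
    by_cases h : FF typ S {w | x w = true}
    · have h2 : FF typ S {w | y w = true} := by
        refine FF_mono typ _ hdown ?_ h
        intro w hw
        have h3 := hxy w
        have hw' : x w = true := hw
        rw [hw'] at h3
        exact top_le_iff.mp h3
      simp only [h, h2, decide_true, le_refl]
    · simp only [h, decide_false]
      exact bot_le
  · refine ⟨fun _ => true, fun _ => false, ?_⟩
    have h1 : FF typ S {w | (fun _ : Wd typ => true) w = true} := by
      have : {w : Wd typ | (fun _ : Wd typ => true) w = true} = Set.univ := by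
        ext w; simp
      rw [this]
      exact FF_univ typ _ hsurj hempty
    have h2 : ¬ FF typ S {w | (fun _ : Wd typ => false) w = true} := by
      have : {w : Wd typ | (fun _ : Wd typ => false) w = true} = ∅ := by
        ext w; simp
      rw [this]
      exact FF_empty typ _ (fun h => hS (hdown _ _ (Set.subset_univ _) h))
    intro h3
    have h4 := (decide_eq_true h1).symm.trans (h3.trans (decide_eq_false h2))
    exact Bool.noConfusion h4
  · intro w w'
    obtain ⟨σ, hσ, h⟩ := FF_trans typ S htr w w'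
    refine ⟨σ, hσ, fun x => ?_⟩
    have himg : σ '' {u | (x ∘ σ) u = true} = {u | x u = true} := by
      ext u
      constructor
      · rintro ⟨v, hv, rfl⟩
        exact hv
      · intro hu
        refine ⟨σ.symm u, ?_, σ.apply_symm_apply u⟩
        show x (σ (σ.symm u)) = true
        rw [σ.apply_symm_apply]
        exact hu
    have h3 := h {u | (x ∘ σ) u = true}
    rw [himg] at h3
    exact (decide_eq_decide.mpr h3.symm)
  · intro x
    have h1 := ht x
    by_cases h : FF typ S {w | x w = true}
    · rw [h1.mpr h]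
      exact (decide_eq_true h).symm
    · cases h4 : t.eval x with
      | false => exact (decide_eq_false h).symm
      | true => exact absurd (h1.mp h4) h

end Pool.Agent.H702.EX
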