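import Pool.Agent.H702.EX.Chk

set_option autoImplicit false

/-! # The complex on 13 vertices and its strategies (helper702; found by computer search)

The vertices 0-10 span a contractible complex invariant under `A5` acting with the orbits
`{0, ..., 4}` and `{5, ..., 10}`; the complex is invariant under an involution of `A5` which
exchanges the two new vertices 11 and 12. -/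

namespace Pool.Agent.H702.EX

/-- The facets, as bitmasks: the vertices 0-10 are old, 11 and 12 are new. -/
def fct : List ℕ := [
  493, 508, 941, 953, 1262, 1276, 1646, 1654, 2475, 2507, 2510, 2535, 2550, 2791, 2797, 2803,
  2805, 2810, 2812, 2873, 2919, 2923, 2925, 2931, 2933, 2934, 2938, 2940, 2990, 2995, 3002, 3004,
  3015, 3021, 3030, 3033, 3036, 3182, 3303, 3307, 3315, 3318, 3431, 3435, 3437, 3446, 3450, 3452,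
  3495, 3502, 3510, 3514, 3516, 3527, 3533, 3539, 3542, 3545, 3662, 3691, 3693, 3699, 3701, 3706,
  3708, 3751, 3755, 3758, 3763, 3765, 3769, 3770, 3772, 3789, 3797, 3801, 3804, 3885, 3886, 3893,
  3894, 3898, 3915, 3923, 3924, 3929, 3930, 3975, 3981, 3982, 3987, 3993, 3994, 4525, 4583, 4587,
  4595, 4601, 4843, 4846, 4851, 4853, 4858, 4860, 4967, 4971, 4973, 4979, 4981, 4982, 4986, 4988,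
  5005, 5031, 5038, 5043, 5045, 5050, 5052, 5070, 5078, 5082, 5084, 5223, 5319, 5325, 5355, 5369,
  5483, 5485, 5493, 5497, 5500, 5543, 5547, 5550, 5557, 5561, 5564, 5579, 5582, 5587, 5590, 5593,
  5686, 5741, 5747, 5749, 5756, 5799, 5803, 5806, 5811, 5813, 5817, 5818, 5820, 5835, 5838, 5846,
  5849, 5852, 5933, 5934, 5941, 5945, 5946, 5963, 5965, 5966, 5971, 5973, 5974, 6023, 6035, 6037,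
  6038, 6040, 6375, 6379, 6507, 6509, 6539, 6567, 6588, 6599, 6630, 6650, 6745, 6759, 6763, 6765,
  6766, 6773, 6774, 6778, 6780, 6806, 6823, 6827, 6829, 6830, 6837, 6841, 6842, 6844, 6861, 6862,
  6869, 6874, 6876, 6883, 6886, 6889, 6897, 6898, 6900, 6904, 6957, 6958, 6965, 6966, 6970, 6972,
  6983, 6987, 6997, 6998, 7002, 7004, 7011, 7013, 7014, 7017, 7020, 7025, 7028, 7032, 7047, 7054,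
  7066, 7075, 7078, 7082, 7092, 7096, 7110, 7116, 7123, 7124, 7128, 7239, 7275, 7292, 7335, 7342,
  7371, 7401, 7413, 7477, 7482, 7505, 7522, 7544, 7570, 7585, 7604, 7644, 7725, 7726, 7733, 7737,
  7738, 7740, 7755, 7757, 7765, 7779, 7781, 7785, 7796, 7800, 7815, 7819, 7829, 7833, 7834, 7836,
  7843, 7846, 7849, 7850, 7852, 7858, 7860, 7864, 7881, 7884, 7891, 7892, 7896, 7975, 7979, 7984,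
  8008, 8068]

/-- Closure under removal of elements. -/
def clos (x : ℕ) : ℕ → ℕ
  | 0 => x
  | v + 1 => clos (x ||| ((x >>> 2 ^ v) &&& msk 13 v)) v

/-- The bitmap of the complex. -/
def big : ℕ := clos (fct.foldr (fun m x => x ||| 2 ^ m) 0) 13

/-- strategy: link of 11 after removal of 12. -/
def tr11 : Tr :=
  .q 8 (.q 5 (.q 7 (.q 6 (.q 9 (.l 0) (.q 10 (.l 0) (.q 0 (.q 3 (.l 1) (.q 4 (.l 1) (.l 1))) (.q 2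
  (.q 3 (.l 1) (.l 1)) (.l 1))))) (.q 9 (.q 10 (.l 0) (.q 0 (.q 2 (.l 1) (.q 3 (.l 1) (.l 1))) (.q
  1 (.q 2 (.q 4 (.l 3) (.l 3)) (.l 3)) (.l 2)))) (.q 0 (.q 3 (.q 2 (.l 1) (.q 4 (.l 1) (.q 10 (.l
  1) (.l 1)))) (.q 4 (.q 2 (.l 1) (.q 10 (.l 1) (.l 1))) (.l 1))) (.q 1 (.q 2 (.q 3 (.q 4 (.l 10)
  (.l 10)) (.l 4)) (.l 3)) (.l 2))))) (.q 3 (.q 2 (.q 1 (.q 0 (.l 4) (.q 4 (.l 6) (.q 6 (.l 9) (.l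
  9)))) (.q 4 (.q 0 (.l 6) (.q 9 (.q 10 (.l 6) (.l 6)) (.l 6))) (.q 6 (.q 9 (.q 10 (.l 0) (.l 0))
  (.l 0)) (.l 0)))) (.q 0 (.q 4 (.q 1 (.l 6) (.q 6 (.l 9) (.q 10 (.l 9) (.l 9)))) (.q 6 (.q 9 (.q
  10 (.l 1) (.l 1)) (.l 1)) (.l 1))) (.q 6 (.q 9 (.q 10 (.l 1) (.l 1)) (.l 1)) (.l 1)))) (.q 10
  (.q 6 (.q 9 (.l 0) (.q 0 (.q 4 (.l 1) (.l 1)) (.l 1))) (.q 0 (.q 1 (.q 4 (.l 2) (.l 2)) (.l 2))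
  (.l 1))) (.q 0 (.q 1 (.q 2 (.q 4 (.l 6) (.l 6)) (.l 4)) (.l 2)) (.l 1))))) (.q 2 (.q 3 (.q 1 (.q
  0 (.l 4) (.q 4 (.l 6) (.q 6 (.q 9 (.l 7) (.q 10 (.l 7) (.l 7))) (.l 7)))) (.q 4 (.q 0 (.l 6) (.q
  9 (.q 10 (.l 6) (.l 6)) (.l 6))) (.q 6 (.q 9 (.q 10 (.l 0) (.l 0)) (.l 0)) (.l 0)))) (.q 0 (.q 4
  (.q 1 (.l 6) (.q 7 (.l 6) (.q 6 (.q 10 (.l 9) (.l 9)) (.l 9)))) (.q 6 (.q 9 (.q 10 (.l 1) (.l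
  1)) (.l 1)) (.l 1))) (.q 9 (.q 10 (.q 6 (.q 1 (.l 4) (.q 7 (.l 4) (.l 4))) (.q 4 (.q 7 (.l 1)
  (.l 1)) (.l 1))) (.l 1)) (.l 1)))) (.q 1 (.q 3 (.q 0 (.q 4 (.l 6) (.q 7 (.q 9 (.l 6) (.q 10 (.l
  6) (.l 6))) (.l 6))) (.q 6 (.q 7 (.q 9 (.l 4) (.q 10 (.l 4) (.l 4))) (.l 4)) (.l 4))) (.q 6 (.q
  7 (.q 9 (.q 10 (.l 0) (.l 0)) (.l 0)) (.l 0)) (.l 0))) (.q 6 (.q 7 (.q 9 (.q 10 (.l 0) (.l 0))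
  (.l 0)) (.l 0)) (.l 0))))) (.q 1 (.q 2 (.q 0 (.q 3 (.l 4) (.q 4 (.l 5) (.q 6 (.q 9 (.q 10 (.l 5)
  (.l 5)) (.l 5)) (.l 5)))) (.q 4 (.q 3 (.l 5) (.q 9 (.q 7 (.q 5 (.l 6) (.q 10 (.l 6) (.l 6))) (.q
  6 (.q 10 (.l 5) (.l 5)) (.l 5))) (.l 5))) (.q 6 (.q 7 (.q 3 (.q 5 (.l 9) (.q 10 (.l 9) (.l 9)))
  (.q 9 (.q 10 (.l 5) (.l 5)) (.l 5))) (.q 5 (.q 9 (.q 10 (.l 3) (.l 3)) (.l 3)) (.l 3))) (.l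
  3)))) (.q 3 (.q 0 (.q 4 (.l 5) (.q 6 (.q 7 (.q 9 (.l 5) (.l 5)) (.l 5)) (.l 5))) (.q 6 (.q 7 (.q
  10 (.q 4 (.l 5) (.q 9 (.l 5) (.l 5))) (.l 4)) (.l 4)) (.l 4))) (.q 5 (.q 6 (.q 7 (.q 9 (.q 10
  (.l 0) (.l 0)) (.l 0)) (.l 0)) (.l 0)) (.l 0)))) (.q 3 (.q 4 (.q 0 (.q 2 (.l 5) (.q 5 (.q 6 (.l
  7) (.l 7)) (.l 6))) (.q 5 (.q 6 (.q 7 (.q 10 (.l 2) (.l 2)) (.l 2)) (.l 2)) (.l 2))) (.q 5 (.q 7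
  (.q 10 (.q 2 (.q 0 (.l 6) (.q 6 (.l 9) (.l 9))) (.q 6 (.q 9 (.l 0) (.l 0)) (.l 0))) (.l 0)) (.l
  0)) (.l 0))) (.q 5 (.q 6 (.q 7 (.q 9 (.q 10 (.l 0) (.l 0)) (.l 0)) (.l 0)) (.l 0)) (.l 0))))

/-- strategy: link of 12. -/
def tr12 : Tr :=
  .q 10 (.q 11 (.q 8 (.q 6 (.q 0 (.q 1 (.l 2) (.q 2 (.l 3) (.q 3 (.l 4) (.q 5 (.l 4) (.q 7 (.l 4)
  (.q 9 (.l 4) (.l 4))))))) (.q 1 (.q 2 (.l 3) (.q 3 (.l 4) (.q 4 (.l 5) (.q 7 (.l 5) (.q 9 (.l 5)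
  (.l 5)))))) (.q 5 (.q 2 (.l 3) (.q 7 (.l 3) (.q 9 (.l 3) (.l 3)))) (.q 9 (.q 2 (.l 3) (.q 4 (.l
  3) (.q 7 (.l 3) (.l 3)))) (.l 2))))) (.q 3 (.q 2 (.q 0 (.l 1) (.q 1 (.l 4) (.q 5 (.l 4) (.q 9
  (.l 4) (.l 4))))) (.q 7 (.q 0 (.l 1) (.q 1 (.l 4) (.q 5 (.l 4) (.q 9 (.l 4) (.l 4))))) (.q 4 (.q
  0 (.l 1) (.q 9 (.l 1) (.l 1))) (.l 0)))) (.q 7 (.q 0 (.q 1 (.l 2) (.q 2 (.l 4) (.q 4 (.l 5) (.q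
  9 (.l 5) (.l 5))))) (.q 1 (.q 2 (.l 4) (.q 5 (.l 4) (.q 9 (.l 4) (.l 4)))) (.q 9 (.q 4 (.l 2)
  (.q 5 (.l 2) (.l 2))) (.l 2)))) (.q 4 (.q 1 (.q 0 (.l 2) (.q 2 (.l 5) (.q 9 (.l 5) (.l 5)))) (.q
  9 (.q 0 (.l 2) (.q 2 (.l 5) (.l 5))) (.l 0))) (.l 0))))) (.q 3 (.q 1 (.q 2 (.q 0 (.l 4) (.q 4
  (.l 5) (.q 6 (.l 5) (.q 7 (.q 9 (.l 5) (.l 5)) (.l 5))))) (.q 4 (.q 0 (.l 5) (.q 6 (.l 5) (.q 5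
  (.q 7 (.l 9) (.l 9)) (.l 7)))) (.q 5 (.q 6 (.q 7 (.l 0) (.q 9 (.l 0) (.l 0))) (.q 0 (.q 7 (.l 9)
  (.l 9)) (.l 7))) (.q 6 (.q 7 (.q 9 (.l 0) (.l 0)) (.l 0)) (.l 0))))) (.q 2 (.q 0 (.q 4 (.l 5)
  (.q 7 (.l 5) (.q 5 (.q 6 (.l 9) (.l 9)) (.l 6)))) (.q 5 (.q 6 (.q 7 (.l 4) (.q 9 (.l 4) (.l 4)))
  (.q 4 (.q 7 (.l 9) (.l 9)) (.l 7))) (.q 4 (.q 6 (.q 9 (.l 7) (.l 7)) (.l 7)) (.l 6)))) (.q 4 (.q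
  0 (.q 6 (.l 5) (.q 5 (.q 7 (.l 9) (.l 9)) (.l 7))) (.q 5 (.q 6 (.q 7 (.l 9) (.l 9)) (.l 7)) (.l
  6))) (.q 5 (.q 6 (.q 7 (.q 9 (.l 0) (.l 0)) (.l 0)) (.l 0)) (.l 0))))) (.q 5 (.q 6 (.q 1 (.q 2
  (.l 0) (.q 4 (.l 0) (.q 7 (.l 0) (.l 0)))) (.q 9 (.q 7 (.l 0) (.q 0 (.q 4 (.l 2) (.l 2)) (.l
  2))) (.l 0))) (.q 0 (.q 4 (.q 1 (.l 2) (.q 7 (.q 9 (.l 2) (.l 2)) (.l 2))) (.q 2 (.q 7 (.q 9 (.l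
  1) (.l 1)) (.l 1)) (.l 1))) (.q 1 (.q 2 (.q 4 (.l 7) (.l 7)) (.l 4)) (.l 2)))) (.q 2 (.q 1 (.q 4
  (.l 0) (.q 6 (.q 7 (.l 0) (.q 9 (.l 0) (.l 0))) (.l 0))) (.q 0 (.q 6 (.q 7 (.q 9 (.l 4) (.l 4))
  (.l 4)) (.l 4)) (.l 4))) (.l 0))))) (.q 5 (.q 6 (.q 7 (.q 8 (.l 0) (.q 9 (.l 0) (.q 1 (.q 2 (.l
  0) (.q 4 (.l 0) (.l 0))) (.q 2 (.q 3 (.l 0) (.l 0)) (.l 0))))) (.q 9 (.q 8 (.l 0) (.q 1 (.q 2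
  (.l 0) (.q 3 (.l 0) (.l 0))) (.q 0 (.q 3 (.q 4 (.l 2) (.l 2)) (.l 2)) (.l 2)))) (.q 1 (.q 2 (.q
  3 (.l 0) (.q 4 (.l 0) (.q 8 (.l 0) (.l 0)))) (.q 4 (.q 3 (.l 0) (.q 8 (.l 0) (.l 0))) (.l 0)))
  (.q 0 (.q 2 (.q 3 (.q 4 (.l 8) (.l 8)) (.l 4)) (.l 3)) (.l 2))))) (.q 2 (.q 3 (.q 0 (.q 1 (.l 4)
  (.q 4 (.l 7) (.q 7 (.l 8) (.l 8)))) (.q 4 (.q 1 (.l 7) (.q 8 (.q 9 (.l 7) (.l 7)) (.l 7))) (.q 7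
  (.q 8 (.q 9 (.l 1) (.l 1)) (.l 1)) (.l 1)))) (.q 1 (.q 4 (.q 0 (.l 7) (.q 7 (.l 8) (.q 8 (.l 9)
  (.l 9)))) (.q 7 (.q 8 (.q 9 (.l 0) (.l 0)) (.l 0)) (.l 0))) (.q 7 (.q 8 (.q 9 (.l 0) (.l 0)) (.l
  0)) (.l 0)))) (.q 8 (.q 7 (.q 9 (.l 0) (.q 1 (.q 4 (.l 0) (.l 0)) (.l 0))) (.q 0 (.q 1 (.q 4 (.l
  3) (.l 3)) (.l 3)) (.l 1))) (.q 0 (.q 1 (.q 3 (.q 4 (.l 7) (.l 7)) (.l 4)) (.l 3)) (.l 1)))))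
  (.q 2 (.q 0 (.q 1 (.q 3 (.l 4) (.q 4 (.l 6) (.q 6 (.q 8 (.l 7) (.q 9 (.l 7) (.l 7))) (.l 7))))
  (.q 3 (.q 4 (.l 6) (.q 7 (.q 8 (.l 6) (.q 9 (.l 6) (.l 6))) (.l 6))) (.q 6 (.q 7 (.q 8 (.l 4)
  (.q 9 (.l 4) (.l 4))) (.l 4)) (.l 4)))) (.q 3 (.q 4 (.q 1 (.l 6) (.q 8 (.q 9 (.l 6) (.l 6)) (.l
  6))) (.q 7 (.q 8 (.q 9 (.l 1) (.l 1)) (.l 1)) (.l 1))) (.q 6 (.q 7 (.q 8 (.q 9 (.l 1) (.l 1))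
  (.l 1)) (.l 1)) (.l 1)))) (.q 3 (.q 1 (.q 4 (.q 0 (.l 6) (.q 6 (.l 7) (.q 7 (.q 8 (.l 9) (.l 9))
  (.l 8)))) (.q 7 (.q 8 (.q 9 (.l 0) (.l 0)) (.l 0)) (.l 0))) (.q 8 (.q 9 (.q 6 (.q 4 (.l 0) (.q 7
  (.l 0) (.l 0))) (.q 0 (.q 7 (.l 4) (.l 4)) (.l 4))) (.l 0)) (.l 0))) (.q 6 (.q 7 (.q 8 (.q 9 (.l
  0) (.l 0)) (.l 0)) (.l 0)) (.l 0)))))) (.q 8 (.q 7 (.q 0 (.q 3 (.q 4 (.q 1 (.l 2) (.q 2 (.l 5)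
  (.q 9 (.l 5) (.q 11 (.l 5) (.l 5))))) (.q 9 (.q 1 (.l 2) (.q 5 (.l 2) (.q 6 (.l 2) (.q 11 (.l 2)
  (.l 2))))) (.q 2 (.q 1 (.l 5) (.q 6 (.l 5) (.q 11 (.l 5) (.l 5)))) (.q 11 (.q 5 (.l 1) (.q 6 (.l
  1) (.l 1))) (.l 1))))) (.q 2 (.q 4 (.q 1 (.l 5) (.q 6 (.l 5) (.q 11 (.l 5) (.l 5)))) (.q 6 (.q 9
  (.l 1) (.q 5 (.q 11 (.l 1) (.l 1)) (.l 1))) (.q 5 (.q 9 (.q 11 (.l 1) (.l 1)) (.l 1)) (.l 1))))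
  (.q 5 (.q 6 (.q 9 (.l 1) (.q 11 (.l 1) (.l 1))) (.q 4 (.q 11 (.l 1) (.l 1)) (.l 1))) (.l 1))))
  (.q 2 (.q 5 (.q 6 (.q 3 (.l 1) (.q 4 (.l 1) (.q 9 (.l 1) (.l 1)))) (.q 1 (.q 4 (.l 3) (.q 3 (.q
  11 (.l 9) (.l 9)) (.l 9))) (.q 3 (.q 9 (.q 11 (.l 4) (.l 4)) (.l 4)) (.l 4)))) (.q 1 (.q 3 (.q 4
  (.l 6) (.q 6 (.q 11 (.l 9) (.l 9)) (.l 9))) (.q 4 (.q 11 (.l 6) (.l 6)) (.l 6))) (.q 3 (.q 4 (.q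
  9 (.q 11 (.l 6) (.l 6)) (.l 6)) (.l 6)) (.l 4)))) (.q 9 (.q 5 (.q 6 (.l 1) (.q 1 (.q 4 (.q 11
  (.l 3) (.l 3)) (.l 3)) (.l 3))) (.q 1 (.q 3 (.q 6 (.q 11 (.l 4) (.l 4)) (.l 4)) (.l 4)) (.l 3)))
  (.l 1)))) (.q 1 (.q 2 (.q 0 (.q 3 (.l 4) (.q 4 (.l 5) (.q 5 (.q 6 (.q 11 (.l 9) (.l 9)) (.l 9))
  (.l 6)))) (.q 3 (.q 4 (.l 5) (.q 6 (.q 5 (.l 9) (.q 11 (.l 9) (.l 9))) (.l 5))) (.q 4 (.q 5 (.q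
  6 (.q 11 (.l 9) (.l 9)) (.l 9)) (.l 6)) (.l 5)))) (.q 4 (.q 0 (.q 3 (.l 5) (.q 5 (.q 11 (.l 6)
  (.l 6)) (.l 6))) (.q 5 (.q 6 (.q 9 (.q 11 (.l 3) (.l 3)) (.l 3)) (.l 3)) (.l 3))) (.q 3 (.q 5
  (.q 6 (.q 9 (.q 11 (.l 0) (.l 0)) (.l 0)) (.l 0)) (.l 0)) (.l 0)))) (.q 0 (.q 2 (.q 3 (.q 4 (.l
  5) (.q 6 (.q 9 (.q 11 (.l 5) (.l 5)) (.l 5)) (.l 5))) (.q 4 (.q 5 (.q 6 (.q 11 (.l 9) (.l 9))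
  (.l 9)) (.l 6)) (.l 5))) (.q 3 (.q 4 (.q 11 (.l 5) (.q 6 (.q 9 (.l 5) (.l 5)) (.l 5))) (.l 5))
  (.l 4))) (.q 2 (.q 3 (.q 4 (.q 5 (.q 6 (.q 11 (.l 9) (.l 9)) (.l 9)) (.l 6)) (.l 5)) (.l 4)) (.l
  3))))) (.q 0 (.q 1 (.q 2 (.q 3 (.l 4) (.q 4 (.l 5) (.q 6 (.q 7 (.q 9 (.l 5) (.l 5)) (.l 5)) (.l
  5)))) (.q 3 (.q 4 (.l 5) (.q 6 (.q 7 (.q 9 (.q 11 (.l 5) (.l 5)) (.l 5)) (.l 5)) (.l 5))) (.q 4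
  (.q 5 (.q 11 (.l 6) (.l 6)) (.l 6)) (.l 5)))) (.q 2 (.q 3 (.q 4 (.l 5) (.q 5 (.q 6 (.q 7 (.l 9)
  (.l 9)) (.l 7)) (.l 6))) (.q 5 (.q 6 (.q 7 (.q 9 (.q 11 (.l 4) (.l 4)) (.l 4)) (.l 4)) (.l 4))
  (.l 4))) (.q 3 (.q 4 (.q 6 (.q 5 (.q 9 (.l 7) (.q 11 (.l 7) (.l 7))) (.q 7 (.q 11 (.l 9) (.l 9))
  (.l 9))) (.l 5)) (.l 5)) (.l 4)))) (.q 1 (.q 2 (.q 3 (.q 4 (.l 5) (.q 5 (.q 6 (.q 7 (.q 11 (.l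
  9) (.l 9)) (.l 9)) (.l 7)) (.l 6))) (.q 4 (.q 7 (.q 5 (.l 6) (.q 6 (.q 11 (.l 9) (.l 9)) (.l
  9))) (.l 5)) (.l 5))) (.q 3 (.q 5 (.q 6 (.q 7 (.q 9 (.q 11 (.l 4) (.l 4)) (.l 4)) (.l 4)) (.l
  4)) (.l 4)) (.l 4))) (.q 2 (.q 3 (.q 5 (.q 6 (.q 7 (.q 11 (.l 4) (.l 4)) (.l 4)) (.l 4)) (.l 4))
  (.l 4)) (.l 3)))))

/-- strategy: the complex itself. -/
def trM : Tr :=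
  .q 8 (.q 10 (.q 6 (.q 9 (.q 5 (.l 11) (.q 7 (.l 11) (.q 2 (.q 0 (.q 1 (.l 11) (.q 11 (.l 12) (.q
  3 (.q 4 (.l 12) (.l 12)) (.l 12)))) (.q 3 (.q 4 (.l 11) (.q 11 (.l 12) (.l 12))) (.q 11 (.q 1
  (.l 12) (.q 12 (.l 4) (.l 4))) (.l 12)))) (.q 4 (.q 3 (.q 12 (.l 11) (.q 0 (.q 1 (.l 11) (.l
  11)) (.l 11))) (.q 11 (.q 12 (.l 0) (.l 0)) (.l 12))) (.q 11 (.q 12 (.q 0 (.l 1) (.q 1 (.l 3)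
  (.l 3))) (.l 0)) (.l 12)))))) (.q 1 (.q 3 (.q 2 (.q 0 (.l 11) (.q 4 (.l 11) (.q 5 (.l 11) (.q 11
  (.l 12) (.l 12))))) (.q 4 (.q 0 (.l 11) (.q 7 (.l 11) (.q 12 (.l 11) (.l 11)))) (.q 7 (.q 5 (.l
  11) (.q 11 (.l 12) (.l 12))) (.q 11 (.q 12 (.l 0) (.l 0)) (.l 12))))) (.q 12 (.q 2 (.q 0 (.l 11)
  (.q 5 (.l 11) (.q 11 (.l 4) (.l 4)))) (.q 11 (.q 0 (.l 4) (.q 4 (.l 5) (.q 7 (.l 5) (.l 5))))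
  (.q 5 (.q 4 (.l 0) (.q 7 (.l 0) (.l 0))) (.l 0)))) (.q 5 (.q 7 (.l 11) (.q 0 (.q 4 (.l 11) (.l
  11)) (.l 11))) (.q 0 (.q 2 (.q 4 (.l 11) (.l 11)) (.l 11)) (.l 11))))) (.q 0 (.q 7 (.q 5 (.l 11)
  (.q 2 (.q 4 (.l 11) (.q 12 (.l 11) (.l 11))) (.q 11 (.q 12 (.l 3) (.l 3)) (.l 12)))) (.q 11 (.q
  12 (.q 2 (.l 3) (.q 3 (.l 4) (.q 5 (.l 4) (.l 4)))) (.q 4 (.q 2 (.l 3) (.q 5 (.l 3) (.l 3))) (.l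
  2))) (.q 2 (.q 3 (.q 4 (.l 12) (.l 12)) (.l 12)) (.l 12)))) (.q 5 (.q 7 (.l 11) (.q 2 (.q 11 (.q
  12 (.l 3) (.l 3)) (.l 12)) (.l 11))) (.l 11))))) (.q 3 (.q 2 (.q 0 (.q 1 (.l 11) (.q 4 (.l 11)
  (.q 7 (.q 5 (.l 11) (.q 12 (.l 11) (.l 11))) (.q 11 (.q 12 (.l 5) (.l 5)) (.l 12))))) (.q 9 (.q
  4 (.l 11) (.q 7 (.q 5 (.l 11) (.q 12 (.l 11) (.l 11))) (.q 11 (.q 12 (.l 1) (.l 1)) (.l 12))))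
  (.q 1 (.q 4 (.l 11) (.q 11 (.q 12 (.l 5) (.l 5)) (.l 12))) (.q 5 (.q 11 (.q 12 (.l 4) (.l 4))
  (.l 12)) (.l 11))))) (.q 7 (.q 9 (.q 5 (.l 11) (.q 0 (.q 1 (.l 11) (.q 12 (.l 11) (.l 11))) (.q
  12 (.q 1 (.l 11) (.q 11 (.l 4) (.l 4))) (.l 11)))) (.q 11 (.q 0 (.q 1 (.l 12) (.q 5 (.l 12) (.q
  12 (.l 4) (.l 4)))) (.q 12 (.q 1 (.l 4) (.q 5 (.l 4) (.l 4))) (.l 1))) (.q 1 (.q 4 (.q 0 (.l 12)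
  (.q 12 (.l 5) (.l 5))) (.l 12)) (.l 12)))) (.q 4 (.q 0 (.q 1 (.l 11) (.q 11 (.q 5 (.l 12) (.q 12
  (.l 9) (.l 9))) (.l 12))) (.q 9 (.q 11 (.q 12 (.l 1) (.l 1)) (.l 12)) (.l 11))) (.l 11)))) (.q 7
  (.q 11 (.q 9 (.q 5 (.l 12) (.q 4 (.q 2 (.l 12) (.q 12 (.l 0) (.l 0))) (.q 12 (.q 0 (.l 1) (.q 1
  (.l 2) (.l 2))) (.l 0)))) (.q 0 (.q 4 (.q 2 (.l 12) (.q 5 (.l 12) (.q 12 (.l 1) (.l 1)))) (.q 12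
  (.q 1 (.l 2) (.q 2 (.l 5) (.l 5))) (.l 1))) (.q 1 (.q 12 (.q 2 (.l 4) (.q 5 (.l 4) (.l 4))) (.l
  2)) (.l 12)))) (.q 5 (.q 9 (.l 12) (.q 1 (.q 4 (.q 0 (.l 12) (.q 12 (.l 2) (.l 2))) (.l 12)) (.l
  12))) (.q 0 (.q 1 (.q 2 (.q 4 (.l 12) (.l 12)) (.l 12)) (.l 12)) (.l 12)))) (.q 4 (.q 1 (.q 0
  (.q 2 (.l 11) (.q 5 (.l 11) (.q 11 (.q 12 (.l 9) (.l 9)) (.l 12)))) (.q 12 (.q 2 (.q 5 (.l 11)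
  (.q 11 (.l 9) (.l 9))) (.q 9 (.q 11 (.l 5) (.l 5)) (.l 11))) (.l 11))) (.q 9 (.q 11 (.q 12 (.q 0
  (.l 2) (.q 2 (.l 5) (.l 5))) (.l 0)) (.l 12)) (.l 11))) (.l 11))))) (.q 12 (.q 7 (.q 0 (.q 3 (.q
  4 (.q 1 (.l 11) (.q 2 (.l 11) (.q 9 (.l 11) (.q 11 (.l 5) (.l 5))))) (.q 9 (.q 1 (.l 11) (.q 5
  (.l 11) (.q 6 (.l 11) (.q 11 (.l 2) (.l 2))))) (.q 2 (.q 1 (.l 11) (.q 6 (.l 11) (.q 11 (.l 5)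
  (.l 5)))) (.q 11 (.q 5 (.l 1) (.q 6 (.l 1) (.l 1))) (.l 1))))) (.q 2 (.q 4 (.q 1 (.l 11) (.q 6
  (.l 11) (.q 11 (.l 5) (.l 5)))) (.q 6 (.q 9 (.l 11) (.q 5 (.q 11 (.l 1) (.l 1)) (.l 11))) (.q 5
  (.q 9 (.q 11 (.l 1) (.l 1)) (.l 11)) (.l 11)))) (.q 5 (.q 6 (.q 9 (.l 11) (.q 11 (.l 1) (.l 1)))
  (.q 4 (.q 11 (.l 1) (.l 1)) (.l 11))) (.l 11)))) (.q 2 (.q 5 (.q 6 (.q 3 (.l 11) (.q 4 (.l 11)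
  (.q 9 (.l 11) (.l 11)))) (.q 1 (.q 4 (.l 11) (.q 3 (.q 11 (.l 9) (.l 9)) (.l 11))) (.q 3 (.q 9
  (.q 11 (.l 4) (.l 4)) (.l 11)) (.l 11)))) (.q 1 (.q 3 (.q 4 (.l 11) (.q 6 (.q 11 (.l 9) (.l 9))
  (.l 11))) (.q 4 (.q 11 (.l 6) (.l 6)) (.l 11))) (.q 3 (.q 4 (.q 9 (.q 11 (.l 6) (.l 6)) (.l 11))
  (.l 11)) (.l 11)))) (.q 9 (.q 5 (.q 6 (.l 11) (.q 1 (.q 4 (.q 11 (.l 3) (.l 3)) (.l 11)) (.l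
  11))) (.q 1 (.q 3 (.q 6 (.q 11 (.l 4) (.l 4)) (.l 11)) (.l 11)) (.l 11))) (.l 11)))) (.q 1 (.q 2
  (.q 0 (.q 3 (.l 11) (.q 4 (.l 11) (.q 5 (.q 6 (.q 11 (.l 9) (.l 9)) (.l 11)) (.l 11)))) (.q 3
  (.q 4 (.l 11) (.q 6 (.q 5 (.l 11) (.q 11 (.l 9) (.l 9))) (.l 11))) (.q 4 (.q 5 (.q 6 (.q 11 (.l
  9) (.l 9)) (.l 11)) (.l 11)) (.l 11)))) (.q 4 (.q 0 (.q 3 (.l 11) (.q 5 (.q 11 (.l 6) (.l 6))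
  (.l 11))) (.q 5 (.q 6 (.q 9 (.q 11 (.l 3) (.l 3)) (.l 11)) (.l 11)) (.l 11))) (.q 3 (.q 5 (.q 6
  (.q 9 (.q 11 (.l 0) (.l 0)) (.l 11)) (.l 11)) (.l 11)) (.l 11)))) (.q 0 (.q 2 (.q 3 (.q 4 (.l
  11) (.q 6 (.q 9 (.q 11 (.l 5) (.l 5)) (.l 11)) (.l 11))) (.q 4 (.q 5 (.q 6 (.q 11 (.l 9) (.l 9))
  (.l 11)) (.l 11)) (.l 11))) (.q 3 (.q 4 (.q 11 (.l 5) (.q 6 (.q 9 (.l 5) (.l 5)) (.l 5))) (.l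
  11)) (.l 11))) (.q 2 (.q 3 (.q 4 (.q 5 (.q 6 (.q 11 (.l 9) (.l 9)) (.l 11)) (.l 11)) (.l 11))
  (.l 11)) (.l 11))))) (.q 0 (.q 3 (.q 4 (.q 1 (.l 11) (.q 2 (.l 11) (.q 5 (.q 6 (.q 9 (.l 11) (.q
  11 (.l 7) (.l 7))) (.q 7 (.q 11 (.l 9) (.l 9)) (.l 11))) (.l 11)))) (.q 7 (.q 9 (.q 1 (.l 11)
  (.q 5 (.q 6 (.l 11) (.q 11 (.l 2) (.l 2))) (.l 11))) (.q 2 (.q 1 (.l 11) (.q 5 (.q 11 (.l 6) (.l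
  6)) (.l 11))) (.q 5 (.q 6 (.q 11 (.l 1) (.l 1)) (.l 11)) (.l 11)))) (.q 1 (.q 2 (.l 11) (.l 11))
  (.l 11)))) (.q 2 (.q 4 (.q 1 (.l 11) (.q 7 (.q 6 (.l 11) (.q 11 (.l 5) (.l 5))) (.l 11))) (.q 5
  (.q 7 (.q 9 (.q 6 (.l 11) (.q 11 (.l 1) (.l 1))) (.l 11)) (.l 11)) (.l 11))) (.q 5 (.q 6 (.q 7
  (.q 9 (.l 11) (.q 4 (.q 11 (.l 1) (.l 1)) (.l 11))) (.l 11)) (.l 11)) (.l 11)))) (.q 1 (.q 2 (.q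
  3 (.q 4 (.l 11) (.q 6 (.q 5 (.l 11) (.q 9 (.q 11 (.l 7) (.l 7)) (.l 11))) (.l 11))) (.q 5 (.q 7
  (.q 9 (.q 4 (.l 11) (.q 6 (.l 11) (.l 11))) (.l 11)) (.l 11)) (.l 11))) (.q 6 (.q 7 (.q 9 (.q 5
  (.l 11) (.q 3 (.q 11 (.l 4) (.l 4)) (.l 11))) (.l 11)) (.l 11)) (.l 11))) (.q 5 (.q 6 (.q 7 (.q
  9 (.l 11) (.q 2 (.q 3 (.q 11 (.l 4) (.l 4)) (.l 11)) (.l 11))) (.l 11)) (.l 11)) (.l 11))))))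
  (.q 10 (.q 11 (.q 6 (.q 1 (.q 2 (.q 4 (.q 0 (.l 12) (.q 3 (.l 12) (.q 9 (.l 12) (.q 12 (.l 5)
  (.l 5))))) (.q 9 (.q 0 (.l 12) (.q 5 (.l 12) (.q 7 (.l 12) (.q 12 (.l 3) (.l 3))))) (.q 3 (.q 0
  (.l 12) (.q 7 (.l 12) (.q 12 (.l 5) (.l 5)))) (.q 12 (.q 5 (.l 0) (.q 7 (.l 0) (.l 0))) (.l
  0))))) (.q 3 (.q 4 (.q 0 (.l 12) (.q 7 (.l 12) (.q 12 (.l 5) (.l 5)))) (.q 7 (.q 9 (.l 12) (.q 5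
  (.q 12 (.l 0) (.l 0)) (.l 12))) (.q 5 (.q 9 (.q 12 (.l 0) (.l 0)) (.l 12)) (.l 12)))) (.q 5 (.q
  7 (.q 9 (.l 12) (.q 12 (.l 0) (.l 0))) (.q 4 (.q 12 (.l 0) (.l 0)) (.l 12))) (.l 12)))) (.q 3
  (.q 5 (.q 7 (.q 2 (.l 12) (.q 4 (.l 12) (.q 9 (.l 12) (.l 12)))) (.q 0 (.q 4 (.l 12) (.q 2 (.q
  12 (.l 9) (.l 9)) (.l 12))) (.q 2 (.q 9 (.q 12 (.l 4) (.l 4)) (.l 12)) (.l 12)))) (.q 0 (.q 2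
  (.q 4 (.l 12) (.q 7 (.q 12 (.l 9) (.l 9)) (.l 12))) (.q 4 (.q 12 (.l 7) (.l 7)) (.l 12))) (.q 2
  (.q 4 (.q 9 (.q 12 (.l 7) (.l 7)) (.l 12)) (.l 12)) (.l 12)))) (.q 9 (.q 5 (.q 7 (.l 12) (.q 0
  (.q 4 (.q 12 (.l 2) (.l 2)) (.l 12)) (.l 12))) (.q 0 (.q 2 (.q 7 (.q 12 (.l 4) (.l 4)) (.l 12))
  (.l 12)) (.l 12))) (.l 12)))) (.q 0 (.q 3 (.q 1 (.q 2 (.l 12) (.q 4 (.l 12) (.q 5 (.q 7 (.q 12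
  (.l 9) (.l 9)) (.l 12)) (.l 12)))) (.q 2 (.q 4 (.l 12) (.q 7 (.q 5 (.l 12) (.q 12 (.l 9) (.l
  9))) (.l 12))) (.q 4 (.q 5 (.q 7 (.q 12 (.l 9) (.l 9)) (.l 12)) (.l 12)) (.l 12)))) (.q 4 (.q 1
  (.q 2 (.l 12) (.q 5 (.q 12 (.l 7) (.l 7)) (.l 12))) (.q 5 (.q 7 (.q 9 (.q 12 (.l 2) (.l 2)) (.l
  12)) (.l 12)) (.l 12))) (.q 2 (.q 5 (.q 7 (.q 9 (.q 12 (.l 1) (.l 1)) (.l 12)) (.l 12)) (.l 12))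
  (.l 12)))) (.q 1 (.q 2 (.q 3 (.q 4 (.l 12) (.q 7 (.q 9 (.q 12 (.l 5) (.l 5)) (.l 12)) (.l 12)))
  (.q 4 (.q 12 (.l 5) (.q 7 (.q 9 (.l 5) (.l 5)) (.l 5))) (.l 12))) (.q 3 (.q 4 (.q 5 (.q 7 (.q 12
  (.l 9) (.l 9)) (.l 12)) (.l 12)) (.l 12)) (.l 12))) (.q 2 (.q 3 (.q 4 (.q 5 (.q 7 (.q 12 (.l 9)
  (.l 9)) (.l 12)) (.l 12)) (.l 12)) (.l 12)) (.l 12))))) (.q 1 (.q 2 (.q 4 (.q 0 (.l 12) (.q 3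
  (.l 12) (.q 5 (.q 7 (.q 9 (.l 12) (.q 12 (.l 6) (.l 6))) (.q 6 (.q 12 (.l 9) (.l 9)) (.l 12)))
  (.l 12)))) (.q 6 (.q 9 (.q 0 (.l 12) (.q 5 (.q 7 (.l 12) (.q 12 (.l 3) (.l 3))) (.l 12))) (.q 3
  (.q 0 (.l 12) (.q 5 (.q 12 (.l 7) (.l 7)) (.l 12))) (.q 5 (.q 7 (.q 12 (.l 0) (.l 0)) (.l 12))
  (.l 12)))) (.q 0 (.q 3 (.l 12) (.l 12)) (.l 12)))) (.q 3 (.q 4 (.q 0 (.l 12) (.q 6 (.q 7 (.l 12)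
  (.q 12 (.l 5) (.l 5))) (.l 12))) (.q 5 (.q 6 (.q 9 (.q 7 (.l 12) (.q 12 (.l 0) (.l 0))) (.l 12))
  (.l 12)) (.l 12))) (.q 5 (.q 6 (.q 7 (.q 9 (.l 12) (.q 4 (.q 12 (.l 0) (.l 0)) (.l 12))) (.l
  12)) (.l 12)) (.l 12)))) (.q 0 (.q 2 (.q 3 (.q 4 (.l 12) (.q 7 (.q 5 (.l 12) (.q 9 (.q 12 (.l 6)
  (.l 6)) (.l 12))) (.l 12))) (.q 6 (.q 7 (.q 9 (.q 5 (.l 12) (.q 12 (.l 4) (.l 4))) (.l 12)) (.l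
  12)) (.l 12))) (.q 5 (.q 6 (.q 9 (.q 7 (.l 12) (.q 3 (.q 4 (.l 12) (.l 12)) (.l 12))) (.l 12))
  (.l 12)) (.l 12))) (.q 5 (.q 6 (.q 7 (.q 9 (.l 12) (.q 2 (.q 3 (.q 12 (.l 4) (.l 4)) (.l 12))
  (.l 12))) (.l 12)) (.l 12)) (.l 12))))) (.q 0 (.q 1 (.q 2 (.q 3 (.l 11) (.q 4 (.l 11) (.q 6 (.q
  7 (.q 9 (.q 12 (.l 11) (.l 11)) (.l 11)) (.l 11)) (.l 11)))) (.q 3 (.q 4 (.l 11) (.q 6 (.q 7 (.q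
  9 (.q 11 (.l 12) (.l 12)) (.l 11)) (.l 11)) (.l 11))) (.q 4 (.q 5 (.q 11 (.q 12 (.l 6) (.l 6))
  (.l 12)) (.l 11)) (.l 11)))) (.q 2 (.q 3 (.q 4 (.l 11) (.q 5 (.q 6 (.q 7 (.q 12 (.l 11) (.l 11))
  (.l 11)) (.l 11)) (.l 11))) (.q 5 (.q 6 (.q 7 (.q 9 (.q 11 (.q 12 (.l 4) (.l 4)) (.l 12)) (.l
  11)) (.l 11)) (.l 11)) (.l 11))) (.q 3 (.q 4 (.q 6 (.q 5 (.q 9 (.l 11) (.q 11 (.l 12) (.l 12)))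
  (.q 7 (.q 11 (.q 12 (.l 9) (.l 9)) (.l 12)) (.l 11))) (.l 11)) (.l 11)) (.l 11)))) (.q 1 (.q 2
  (.q 3 (.q 4 (.l 11) (.q 5 (.q 6 (.q 7 (.q 11 (.l 12) (.l 12)) (.l 11)) (.l 11)) (.l 11))) (.q 4
  (.q 7 (.q 5 (.q 9 (.l 11) (.q 12 (.l 11) (.l 11))) (.q 6 (.q 11 (.q 12 (.l 9) (.l 9)) (.l 12))
  (.l 11))) (.l 11)) (.l 11))) (.q 3 (.q 5 (.q 6 (.q 7 (.q 9 (.q 11 (.q 12 (.l 4) (.l 4)) (.l 12))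
  (.l 11)) (.l 11)) (.l 11)) (.l 11)) (.l 11))) (.q 2 (.q 3 (.q 5 (.q 6 (.q 7 (.q 11 (.q 12 (.l 4)
  (.l 4)) (.l 12)) (.l 11)) (.l 11)) (.l 11)) (.l 11)) (.l 11)))))

end Pool.Agent.H702.EX
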