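import Pool.Agent.H702.EX.Dat
import Pool.Agent.H702.EX.Tab

set_option autoImplicit false

/-! # Facts about the complex on 13 vertices (helper702, after helper73) -/

namespace Pool.Agent.H702.EX

open Set

/-- The complex on 13 vertices. -/
def MM (X : Set (Fin 13)) : Prop := big.testBit (code X) = true

/-- bitmap of all sets. -/
def full : ℕ := bm (fun _ => true) 13

theorem inv0 : Inv MM big full ∅ ∅ :=
  ⟨fun X _ => by rw [union_empty]; rfl, fun X _ => bm_code _ _ (fun _ _ => rfl)⟩

set_option maxRecDepth 100000 in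
theorem down_chk : ∀ v : Fin 13, Nat.beq (((big >>> 2 ^ v.val) &&& msk 13 v.val) &&& big)
    ((big >>> 2 ^ v.val) &&& msk 13 v.val) = true := by decide +kernel

theorem MM_erase (X : Set (Fin 13)) (v : Fin 13) (hv : v ∉ X) (h : MM (insert v X)) : MM X := by
  have h1 := down_chk v
  rw [Nat.beq_eq] at h1
  unfold MM at h ⊢
  rw [code_insert X v hv, ← Nat.testBit_shiftRight] at h
  have h2 : ((big >>> 2 ^ v.val) &&& msk 13 v.val).testBit (code X) = true := by
    rw [Nat.testBit_and, h, msk_code v X hv]; rfl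
  rw [← h1, Nat.testBit_and, Bool.and_eq_true] at h2
  exact h2.2

theorem MM_down (A B : Set (Fin 13)) (hAB : A ⊆ B) (h : MM B) : MM A := by
  classical
  have key : ∀ D : Finset (Fin 13), MM (A ∪ (D : Set (Fin 13))) → MM A := by
    intro D
    induction D using Finset.induction_on with
    | empty => intro h; simpa using h
    | insert v D _ ih =>
      intro h
      apply ih
      rw [Finset.coe_insert, Set.union_insert] at h
      by_cases hv : v ∈ A ∪ (D : Set (Fin 13))
      · rwa [Set.insert_eq_of_mem hv] at h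
      · exact MM_erase _ v hv h
  apply key (Finset.univ.filter (· ∈ B))
  have : A ∪ ((Finset.univ.filter (· ∈ B) : Finset (Fin 13)) : Set (Fin 13)) = B := by
    ext x
    simp only [mem_union, Finset.coe_filter, Finset.mem_univ, true_and, mem_ofPred_eq]
    exact ⟨fun h => h.elim (fun h => hAB h) id, Or.inr⟩
  rw [this]; exact h

theorem MM_empty : MM ∅ := by
  unfold MM
  rw [code_empty]
  decide +kernel

/-- the bitmask of the type of an old vertex. -/
def tmask (w : ℕ) : ℕ := if Nat.ble w 4 then 31 else 2016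

/-- condition for leaves, computable. -/
def qM (t m w : ℕ) : Bool :=
  Nat.ble 11 w || !(Nat.beq (m &&& tmask w) 0) || !(Nat.beq ((t ||| m) &&& 6144) 6144)

/-- types of the vertices. -/
def t14 (i : ℕ) : ℕ := if i < 5 then 0 else 1

/-- condition for the leaves. -/
def Qf (T N : Set (Fin 13)) (w : Fin 13) : Prop :=
  11 ≤ w.val ∨ (∃ u ∈ N, u.val < 11 ∧ t14 u.val = t14 w.val) ∨ (∃ z, 11 ≤ z.val ∧ z ∉ T ∧ z ∉ N)

theorem bit_lt {m i k : ℕ} (hm : m < 2 ^ k) (h : m.testBit i = true) : i < k := by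
  by_contra hik
  have h1 : m < 2 ^ i := lt_of_lt_of_le hm (Nat.pow_le_pow_right (by norm_num) (by omega))
  rw [Nat.testBit_lt_two_pow h1] at h
  exact Bool.false_ne_true h

theorem tmask_spec (w i : ℕ) (hw : w < 11) (h : (tmask w).testBit i = true) :
    i < 11 ∧ t14 i = t14 w := by
  have h1 : tmask w < 2 ^ 11 := by
    unfold tmask; split_ifs <;> norm_num
  have hi := bit_lt h1 h
  refine ⟨hi, ?_⟩
  have key : ∀ w : Fin 11, ∀ i : Fin 11, (tmask w.val).testBit i.val = true →
      t14 i.val = t14 w.val := by decide +kernel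
  exact key ⟨w, hw⟩ ⟨i, hi⟩ h

theorem qM_spec (t m w : ℕ) (hw : w < 13) (h : qM t m w = true) :
    Qf (st 13 t) (st 13 m) ⟨w, hw⟩ := by
  by_cases hw13 : 11 ≤ w
  · exact Or.inl hw13
  right
  simp only [qM, Bool.or_eq_true, Nat.ble_eq, Bool.not_eq_true'] at h
  rcases h with (h | h) | h
  · exact absurd h hw13
  · left
    have h1 : m &&& tmask w ≠ 0 := by
      intro h2
      rw [h2] at h
      simp at h
    obtain ⟨i, hi⟩ := Nat.exists_testBit_of_ne_zero h1
    rw [Nat.testBit_and, Bool.and_eq_true] at hi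
    obtain ⟨h2, h3⟩ := tmask_spec w i (by omega) hi.2
    exact ⟨⟨i, by omega⟩, hi.1, h2, h3⟩
  · right
    by_contra hcon
    push Not at hcon
    have h1 : (t ||| m) &&& 6144 = 6144 := by
      apply Nat.eq_of_testBit_eq
      intro i
      rw [Nat.testBit_and]
      by_cases hi : Nat.testBit 6144 i = true
      · have hi17 : i < 13 := bit_lt (by norm_num) hi
        have hi13 : 11 ≤ i := by
          have key : ∀ i : Fin 13, Nat.testBit 6144 i.val = true → 11 ≤ i.val := by decide
          exact key ⟨i, hi17⟩ hi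
        have h2 := hcon ⟨i, hi17⟩ hi13
        rw [hi, Bool.and_true, Nat.testBit_or, Bool.or_eq_true]
        by_cases h3 : t.testBit i = true
        · exact Or.inl h3
        · exact Or.inr (h2 h3)
      · rw [Bool.not_eq_true] at hi
        rw [hi, Bool.and_false]
    rw [h1] at h
    simp at h

set_option maxRecDepth 100000 in
theorem chkM : chk 13 qM trM big full 0 0 = true := by decide +kernel

theorem wm_M : WM Qf MM ∅ ∅ := by
  have := chk_sound (M := MM) Qf qM qM_spec trM big full 0 0 chkM (by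
    rw [st_zero]; exact inv0)
  rwa [st_zero] at this

/-- bitmap of the sets of vertices `≤ 11 + j`. -/
def kz (j : ℕ) : ℕ := match j with
  | 1 => full
  | _ => full &&& msk 13 12

/-- mask of the later vertices. -/
def lz (j : ℕ) : ℕ := match j with
  | 1 => 0
  | _ => 4096

/-- the tree of the link. -/
def tz (j : ℕ) : Tr := match j with
  | 1 => tr12
  | _ => tr11

set_option maxRecDepth 100000 in
theorem chkz : ∀ j : Fin 2, chk 13 (fun _ _ _ => true) (tz j.val) (big >>> 2 ^ (11 + j.val))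
    (kz j.val &&& msk 13 (11 + j.val)) (2 ^ (11 + j.val)) (lz j.val) = true := by decide +kernel

theorem inv_z : ∀ j : Fin 2, Inv MM big (kz j.val) ∅ (st 13 (lz j.val)) := by
  have h1 : Inv MM big full ∅ (st 13 0) := by rw [st_zero]; exact inv0
  have h0 := h1.abs 12
  rw [← st_or] at h0
  intro j
  fin_cases j
  · exact h0
  · exact h1

theorem wm_z (j : Fin 2) : WM (fun _ _ _ => True) MM {(⟨11 + j.val, by omega⟩ : Fin 13)}
    {i : Fin 13 | 11 + j.val < i.val} := by
  have e1 : st 13 (lz j.val) = {i : Fin 13 | 11 + j.val < i.val} := by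
    have key : ∀ j : Fin 2, ∀ i : Fin 13, (lz j.val).testBit i.val = true ↔ 11 + j.val < i.val := by
      decide
    ext i
    exact key j i
  have e2 : st 13 (2 ^ (11 + j.val)) = {(⟨11 + j.val, by omega⟩ : Fin 13)} := by
    have := st_or 0 (⟨11 + j.val, by omega⟩ : Fin 13)
    rw [st_zero] at this
    simpa using this
  have h := (inv_z j).pres ⟨11 + j.val, by omega⟩ (Set.notMem_empty _) (by
    rw [e1]; exact fun h => absurd h (lt_irrefl (11 + j.val)))
  have := chk_sound (M := MM) (fun _ _ _ => True) (fun _ _ _ => true) (fun _ _ _ _ _ => trivial)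
    (tz j.val) _ _ _ _ (chkz j) (by
      rw [e2]
      simpa using h)
  rwa [e1, e2] at this

theorem wm_z0 : WM (fun _ _ _ => True) MM {(11 : Fin 13)} {(12 : Fin 13)} := by
  have h := wm_z 0
  have e : {i : Fin 13 | 11 + (0 : Fin 2).val < i.val} = {(12 : Fin 13)} := by
    have key : ∀ i : Fin 13, 11 + (0 : Fin 2).val < i.val ↔ i = 12 := by decide
    ext i
    exact key i
  rw [e] at h
  exact h

theorem wm_z1 : WM (fun _ _ _ => True) MM {(12 : Fin 13)} ∅ := by
  have h := wm_z 1
  have e : {i : Fin 13 | 11 + (1 : Fin 2).val < i.val} = ∅ := by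
    have key : ∀ i : Fin 13, ¬ (11 + (1 : Fin 2).val < i.val) := by decide
    ext i
    simp only [Set.mem_empty_iff_false, iff_false]
    exact key i
  rw [e] at h
  exact h

/-! ### The old vertices -/

/-- the set of old vertices given by a subset of `Fin 11`. -/
def old (Y : Set (Fin 11)) : Set (Fin 13) := {i | ∃ h : i.val < 11, (⟨i.val, h⟩ : Fin 11) ∈ Y}

theorem toN_old (Y : Set (Fin 11)) : toN (old Y) = toN Y := by
  ext i
  rw [mem_toN, mem_toN]
  constructor
  · rintro ⟨h, h1, h2⟩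
    exact ⟨h1, h2⟩
  · rintro ⟨h1, h2⟩
    exact ⟨by omega, h1, h2⟩

/-- checker for the invariance. -/
def ck (f : ℕ → ℕ) : ℕ → ℕ → ℕ → Bool
  | 0, s, s' => big.testBit s == big.testBit s'
  | n + 1, s, s' => ck f n s s' && ck f n (s + 2 ^ n) (s' + 2 ^ f n)

theorem ck_sound (f : ℕ → ℕ) : ∀ (n s s' : ℕ), ck f n s s' = true → ∀ Y : Finset ℕ,
    (∀ i ∈ Y, i < n) →
    big.testBit (s + ∑ i ∈ Y, 2 ^ i) = big.testBit (s' + ∑ i ∈ Y, 2 ^ f i) := by
  intro n
  induction n with
  | zero =>
    intro s s' h Y hY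
    have : Y = ∅ := by
      rw [Finset.eq_empty_iff_forall_notMem]
      intro i hi
      have := hY i hi
      omega
    subst this
    simpa [ck] using h
  | succ n ih =>
    intro s s' h Y hY
    rw [ck, Bool.and_eq_true] at h
    by_cases hn : n ∈ Y
    · have h2 := ih _ _ h.2 (Y.erase n) (fun i hi => by
        rw [Finset.mem_erase] at hi
        have := hY i hi.2
        omega)
      rw [← Finset.add_sum_erase _ _ hn, ← Finset.add_sum_erase _ (fun i => 2 ^ f i) hn,
        ← add_assoc, ← add_assoc]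
      exact h2
    · exact ih _ _ h.1 Y (fun i hi => by
        have := hY i hi
        have hne : i ≠ n := fun e => hn (e ▸ hi)
        omega)

/-- the generators on natural numbers. -/
def gN (c : Fin 2) (i : ℕ) : ℕ := (gen c ⟨i % 11, Nat.mod_lt _ (by norm_num)⟩).val

set_option maxRecDepth 100000 in
theorem ck_gen : ∀ c : Fin 2, ck (gN c) 11 0 0 = true := by decide +kernel

theorem MM_gen (c : Fin 2) (Y : Set (Fin 11)) : MM (old (gen c '' Y)) ↔ MM (old Y) := by
  have h1 := ck_sound (gN c) 11 0 0 (ck_gen c) (toN Y) (fun i hi => by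
    rw [mem_toN] at hi
    exact hi.1)
  have e : toN (gen c '' Y) = (toN Y).image (gN c) := by
    ext i
    rw [mem_toN, Finset.mem_image]
    constructor
    · rintro ⟨h, y, hy, hy2⟩
      refine ⟨y.val, (mem_toN _ _).2 ⟨y.2, hy⟩, ?_⟩
      have : (⟨y.val % 11, Nat.mod_lt _ (by norm_num)⟩ : Fin 11) = y :=
        Fin.ext (Nat.mod_eq_of_lt y.2)
      rw [gN, this, hy2]
    · rintro ⟨a, ha, rfl⟩
      rw [mem_toN] at ha
      obtain ⟨h, h2⟩ := ha
      have : (⟨a % 11, Nat.mod_lt _ (by norm_num)⟩ : Fin 11) = ⟨a, h⟩ :=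
        Fin.ext (Nat.mod_eq_of_lt h)
      rw [gN, this]
      exact ⟨(gen c ⟨a, h⟩).2, ⟨a, h⟩, h2, rfl⟩
  have hinj : Set.InjOn (gN c) (toN Y : Set ℕ) := by
    intro a ha b hb hab
    rw [Finset.mem_coe, mem_toN] at ha hb
    obtain ⟨ha, _⟩ := ha
    obtain ⟨hb, _⟩ := hb
    have h2 := (gen c).injective (Fin.ext hab)
    have h3 := congrArg Fin.val h2
    simp only at h3
    rwa [Nat.mod_eq_of_lt ha, Nat.mod_eq_of_lt hb] at h3
  unfold MM code
  rw [toN_old, toN_old, e, Finset.sum_image hinj]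
  rw [zero_add, zero_add] at h1
  rw [h1]

theorem MM_pm (g : Fin 60) : ∀ Y : Set (Fin 11), MM (old (pm g ⁻¹' Y)) ↔ MM (old Y) := by
  refine gen_ind (fun g => ∀ Y : Set (Fin 11), MM (old (pm g ⁻¹' Y)) ↔ MM (old Y)) ?_ ?_ g
  · intro Y
    have : pm 0 = id := funext pm_zero
    rw [this, Set.preimage_id]
  · intro c g ih Y
    have : pm (piF c g) = gen c ∘ pm g := funext (pm_pi c g)
    rw [this, Set.preimage_comp, ih, ← MM_gen c (gen c ⁻¹' Y),
      Set.image_preimage_eq _ (gen c).surjective]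

theorem code_bool (p : ℕ → Bool) : code {i : Fin 11 | p i.val = true} =
    ∑ i ∈ (Finset.range 11).filter (fun i => p i = true), 2 ^ i := by
  unfold code
  congr 1
  ext i
  rw [mem_toN, Finset.mem_filter, Finset.mem_range]
  constructor
  · rintro ⟨h, h2⟩; exact ⟨h, h2⟩
  · rintro ⟨h, h2⟩; exact ⟨h, h2⟩

theorem MM_fib (x : Fin 11) : ¬ MM (old {y | t0 y = t0 x}) := by
  have key : ∀ k : Fin 2, big.testBit (∑ i ∈ (Finset.range 11).filter
      (fun i => (Nat.beq (t14 i) k.val) = true), 2 ^ i) = false := by decide +kernel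
  have ht : ∀ y : Fin 11, t0 y = t14 y.val := fun y => rfl
  have hlt : t0 x < 2 := by unfold t0; split_ifs <;> norm_num
  have e : {y : Fin 11 | t0 y = t0 x} = {i : Fin 11 | (Nat.beq (t14 i.val) (t0 x)) = true} := by
    ext y
    simp only [mem_ofPred_eq, Nat.beq_eq, ht]
  unfold MM
  have h2 : code (old {y : Fin 11 | t0 y = t0 x}) = code {y : Fin 11 | t0 y = t0 x} := by
    unfold code; rw [toN_old]
  rw [h2, e, code_bool (fun i => Nat.beq (t14 i) (t0 x)), key ⟨t0 x, hlt⟩]
  exact Bool.false_ne_true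

/-! ### The involution -/

/-- the involution of the 13 vertices. -/
def hp (i : Fin 13) : Fin 13 :=
  (![1, 0, 3, 2, 4, 5, 7, 6, 10, 9, 8, 12, 11] : Fin 13 → Fin 13) i

theorem hp_hp : ∀ i : Fin 13, hp (hp i) = i := by decide

theorem hp_old : ∀ i : Fin 13, ∀ h : i.val < 11, ∃ h' : (hp i).val < 11,
    (⟨(hp i).val, h'⟩ : Fin 11) = ho ⟨i.val, h⟩ := by decide

/-- the involution on natural numbers. -/
def hN (i : ℕ) : ℕ := (hp ⟨i % 13, Nat.mod_lt _ (by norm_num)⟩).val

set_option maxRecDepth 100000 in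
theorem ck_h : ck hN 13 0 0 = true := by decide +kernel

theorem MM_hp_image (Y : Set (Fin 13)) : MM (hp '' Y) ↔ MM Y := by
  have h1 := ck_sound hN 13 0 0 ck_h (toN Y) (fun i hi => by
    rw [mem_toN] at hi
    exact hi.1)
  have e : toN (hp '' Y) = (toN Y).image hN := by
    ext i
    rw [mem_toN, Finset.mem_image]
    constructor
    · rintro ⟨h, y, hy, hy2⟩
      refine ⟨y.val, (mem_toN _ _).2 ⟨y.2, hy⟩, ?_⟩
      have : (⟨y.val % 13, Nat.mod_lt _ (by norm_num)⟩ : Fin 13) = y :=
        Fin.ext (Nat.mod_eq_of_lt y.2)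
      rw [hN, this, hy2]
    · rintro ⟨a, ha, rfl⟩
      rw [mem_toN] at ha
      obtain ⟨h, h2⟩ := ha
      have : (⟨a % 13, Nat.mod_lt _ (by norm_num)⟩ : Fin 13) = ⟨a, h⟩ :=
        Fin.ext (Nat.mod_eq_of_lt h)
      rw [hN, this]
      exact ⟨(hp ⟨a, h⟩).2, ⟨a, h⟩, h2, rfl⟩
  have hpinj : Function.Injective hp := fun a b hab => by
    rw [← hp_hp a, ← hp_hp b, hab]
  have hinj : Set.InjOn hN (toN Y : Set ℕ) := by
    intro a ha b hb hab
    rw [Finset.mem_coe, mem_toN] at ha hb
    obtain ⟨ha, _⟩ := ha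
    obtain ⟨hb, _⟩ := hb
    have h2 := hpinj (Fin.ext hab)
    have h3 := congrArg Fin.val h2
    simp only at h3
    rwa [Nat.mod_eq_of_lt ha, Nat.mod_eq_of_lt hb] at h3
  unfold MM code
  rw [e, Finset.sum_image hinj]
  rw [zero_add, zero_add] at h1
  rw [h1]

theorem MM_hp (Y : Set (Fin 13)) : MM (hp ⁻¹' Y) ↔ MM Y := by
  have e : hp ⁻¹' Y = hp '' Y := by
    ext i
    constructor
    · intro hi
      exact ⟨hp i, hi, hp_hp i⟩
    · rintro ⟨y, hy, rfl⟩
      show hp (hp y) ∈ Y
      rw [hp_hp]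
      exact hy
  rw [e]
  exact MM_hp_image Y

end Pool.Agent.H702.EX
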